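import Pool.Agent.H25.SrMain

/-!
# Reduced `L^p` crossed products of Cantor minimal systems have stable rank one

For `1 ≤ p < ∞`, `p ≠ 2`, an infinite totally disconnected compact Hausdorff space `X` (for
instance the Cantor set) and a minimal homeomorphism `h` of `X`, the invertible elements of the
reduced `L^p` operator crossed product `F^p_r(ℤ, X, h)` are dense.

The algebra `F^p_r(ℤ, X, h)` is `Fpr h p`, defined in `Pool.Agent.H25.SrDefs`: the completion of the
algebra `C_c(ℤ, C(X))` of finite sums `∑ aₙ uⁿ` in the supremum of the norms of its images under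
all regular representations.
-/

open scoped ENNReal
open MeasureTheory Multiplicative

noncomputable section

namespace Pool.Agent.Results.MP_1d722c_an.StableRankOne

open Pool.Agent.H25.SR

variable {X : Type} [TopologicalSpace X] [CompactSpace X] {h : X ≃ₜ X} {p : ℝ≥0∞} [Fact (1 ≤ p)]

/-- Sanity check: the product of `C_c(ℤ, C(X))` is `(f uᵐ)(g uⁿ) = f αᵐ(g) uᵐ⁺ⁿ`, where
`αᵐ(g) = g ∘ h⁻ᵐ`. -/
theorem product_rule (f g : CX h) (m n : ℤ) :
    fu f m * fu g n = fu (f * alphaPow m g) (m + n) := fu_mul_fu f g m n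

/-- Sanity check: the regular representation sends `f uᵏ` to `π(f) vᵏ`, where
`(π(f) ξ)(n) = π₀(α⁻ⁿ(f)) ξ(n)` and `(vᵏ ξ)(n) = ξ(n - k)`. -/
theorem regular_representation {E : Type} [NormedAddCommGroup E] [NormedSpace ℂ E]
    (π₀ : C(X, ℂ) →ₐ[ℂ] (E →L[ℂ] E)) (hc : ∀ f, ‖π₀ f‖ ≤ ‖f‖) (f : CX h) (k : ℤ)
    (ξ : lp (fun _ : ℤ => E) p) (n : ℤ) :
    regRep h p π₀ hc (fu f k) ξ n = π₀ (CX.toC (alphaPow (-n) f)) (ξ (n - k)) :=
  regRep_fu_apply f k ξ n

/-- Sanity check: the norm of `a ∈ C_c(ℤ, C(X))` in `F^p_r(ℤ, X, h)` is the supremum of the norms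
of its images under all regular representations attached to contractive unital representations of
`C(X)` on `L^p` of a `σ`-finite measure space, and this supremum is over a bounded set. -/
theorem norm_formula (a : Cc h) :
    ‖emb h p a‖ = ⨆ ρ : LpRep X p, ‖regRep h p ρ.π₀ ρ.contractive a‖ ∧
      BddAbove (Set.range fun ρ : LpRep X p => ‖regRep h p ρ.π₀ ρ.contractive a‖) :=
  ⟨(norm_emb a).trans (redNorm_eq_iSup a), bddAbove_redNorm a⟩

/-- Sanity check: `C_c(ℤ, C(X))` embeds as a dense subalgebra. -/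
theorem dense_embedding : Function.Injective (emb h p) ∧ DenseRange (emb h p) := by
  refine ⟨?_, emb_denseRange⟩
  rw [injective_iff_map_eq_zero]
  intro a ha
  apply eq_zero_of_redNorm_eq_zero (p := p)
  rw [← norm_emb (p := p) a, ha, norm_zero]

/-- Sanity check: `F^p_r(ℤ, X, h)` is complete, and the Cantor space `ℕ → Bool` satisfies the
hypotheses on `X`. -/
theorem hypotheses_hold : CompleteSpace (Fpr h p) ∧ CompactSpace (ℕ → Bool) ∧ T2Space (ℕ → Bool) ∧
    TotallyDisconnectedSpace (ℕ → Bool) ∧ Infinite (ℕ → Bool) :=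
  ⟨inferInstance, inferInstance, inferInstance, inferInstance, inferInstance⟩

/-- **Stable rank one.** For `p ∈ [1, ∞)`, `p ≠ 2`, every infinite totally disconnected compact
Hausdorff space `X` and every minimal homeomorphism `h` of `X`, the invertible elements of the
reduced `L^p` crossed product `F^p_r(ℤ, X, h)` are dense. -/
theorem result (p : ℝ≥0∞) [Fact (1 ≤ p)] (hp : p ≠ ∞) (hp2 : p ≠ 2)
    (X : Type) [TopologicalSpace X] [CompactSpace X] [T2Space X] [TotallyDisconnectedSpace X]
    [Infinite X] (h : X ≃ₜ X)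
    (hmin : ∀ x : X, Dense (Set.range fun n : ℤ => (h ^ n : X ≃ₜ X) x)) :
    Dense {a : Fpr h p | IsUnit a} :=
  dense_isUnit hp hp2 hmin

end Pool.Agent.Results.MP_1d722c_an.StableRankOne
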